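import Pool.Agent.TH610.CSP.Stm

/-! # CSP-10 TOP: from the Torelli group to Aut (F_n) (second prover, helper148) -/

set_option autoImplicit false

open Matrix

namespace Pool.Agent.TH610.CSP.H148

variable {n : ℕ}

/-- abelianization -/
noncomputable def ab (n : ℕ) : FF n →* Multiplicative (Fin n → ℤ) :=
  FreeGroup.lift (fun i => Multiplicative.ofAdd (Pi.single i 1))

/-- exponent sums -/
noncomputable def e (x : FF n) : Fin n → ℤ := Multiplicative.toAdd (ab n x)

theorem e_mul (x y : FF n) : e (x * y) = e x + e y := by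
  unfold e; rw [map_mul]; rfl

theorem e_one : e (1 : FF n) = 0 := by
  unfold e; rw [map_one]; rfl

theorem e_inv (x : FF n) : e (x⁻¹) = - e x := by
  unfold e; rw [map_inv]; rfl

theorem e_of (i : Fin n) : e (FreeGroup.of i) = Pi.single i 1 := by
  unfold e ab; rw [FreeGroup.lift_apply_of]; rfl

theorem e_zpow (x : FF n) (t : ℤ) : e (x ^ t) = t • e x := by
  unfold e; rw [map_zpow]; rfl

/-- induction on the free group -/
theorem e_ind {P : FF n → Prop} (h1 : P 1) (hof : ∀ i, P (FreeGroup.of i))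
    (hmul : ∀ x y, P x → P y → P (x * y)) (hinv : ∀ x, P x → P (x⁻¹)) (x : FF n) : P x := by
  induction x using FreeGroup.induction_on with
  | C1 => exact h1
  | of i => exact hof i
  | inv_of i h => exact hinv _ h
  | mul x y hx hy => exact hmul x y hx hy

/-- the kernel of the abelianization is the commutator subgroup -/
theorem mem_gam_one {x : FF n} (h : e x = 0) : x ∈ gam n 1 := by
  have h1 : gam n 1 = commutator (FF n) := Subgroup.top_lowerCentralSeries_one
  rw [h1, ← Abelianization.ker_of, MonoidHom.mem_ker]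
  have h2 : ∀ x : FF n, Abelianization.of x =
      ∏ i, (Abelianization.of (FreeGroup.of i) : Abelianization (FF n)) ^ (e x i) := by
    intro x
    refine e_ind (P := fun x => Abelianization.of x =
      ∏ i, (Abelianization.of (FreeGroup.of i) : Abelianization (FF n)) ^ (e x i)) ?_ ?_ ?_ ?_ x
    · simp [e_one]
    · intro i
      rw [e_of, Finset.prod_eq_single i]
      · simp
      · intro j _ hj
        simp [Pi.single_eq_of_ne hj]
      · simp
    · intro x y hx hy
      rw [map_mul, hx, hy, e_mul, ← Finset.prod_mul_distrib]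
      refine Finset.prod_congr rfl fun i _ => ?_
      rw [Pi.add_apply, _root_.zpow_add]
    · intro x hx
      rw [map_inv, hx, e_inv, ← Finset.prod_inv_distrib]
      refine Finset.prod_congr rfl fun i _ => ?_
      rw [Pi.neg_apply, _root_.zpow_neg]
  rw [h2 x, h]
  simp

/-- the matrix of an automorphism -/
noncomputable def mat (ψ : MulAut (FF n)) : Matrix (Fin n) (Fin n) ℤ :=
  Matrix.of fun i j => e (ψ (FreeGroup.of j)) i

theorem mat_apply (ψ : MulAut (FF n)) (i j : Fin n) : mat ψ i j = e (ψ (FreeGroup.of j)) i := rfl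

theorem e_map (ψ : MulAut (FF n)) (x : FF n) : e (ψ x) = mat ψ *ᵥ e x := by
  refine e_ind (P := fun x => e (ψ x) = mat ψ *ᵥ e x) ?_ ?_ ?_ ?_ x
  · rw [map_one, e_one, mulVec_zero]
  · intro i
    rw [e_of]
    funext k
    rw [mulVec_single_one]
    rfl
  · intro x y hx hy
    rw [map_mul, e_mul, hx, hy, e_mul, mulVec_add]
  · intro x hx
    rw [map_inv, e_inv, hx, e_inv, mulVec_neg]

theorem mat_mul (ψ φ : MulAut (FF n)) : mat (ψ * φ) = mat ψ * mat φ := by
  ext i j
  rw [mat_apply, MulAut.mul_apply, e_map, Matrix.mul_apply]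
  rfl

theorem mat_one : mat (1 : MulAut (FF n)) = 1 := by
  ext i j
  rw [mat_apply, MulAut.one_apply, e_of, Matrix.one_apply, Pi.single_apply]

theorem mat_inv_mul (ψ : MulAut (FF n)) : mat ψ⁻¹ * mat ψ = 1 := by
  rw [← mat_mul, inv_mul_cancel, mat_one]

theorem mat_mul_inv (ψ : MulAut (FF n)) : mat ψ * mat ψ⁻¹ = 1 := by
  rw [← mat_mul, mul_inv_cancel, mat_one]

/-- elementary homomorphisms -/
noncomputable def el (i j : Fin n) (t : ℤ) : FF n →* FF n :=
  FreeGroup.lift fun k => if k = j then FreeGroup.of j * FreeGroup.of i ^ t else FreeGroup.of k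

theorem el_of (i j : Fin n) (t : ℤ) (k : Fin n) : el i j t (FreeGroup.of k) =
    if k = j then FreeGroup.of j * FreeGroup.of i ^ t else FreeGroup.of k := by
  unfold el; rw [FreeGroup.lift_apply_of]

theorem el_comp {i j : Fin n} (h : i ≠ j) (s t : ℤ) :
    (el i j s).comp (el i j t) = el i j (s + t) := by
  refine FreeGroup.ext_hom _ _ fun k => ?_
  rw [MonoidHom.comp_apply, el_of, el_of]
  by_cases hk : k = j
  · rw [if_pos hk, if_pos hk, map_mul, map_zpow, el_of, el_of, if_pos rfl, if_neg h, mul_assoc,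
      ← _root_.zpow_add]
  · rw [if_neg hk, if_neg hk, el_of, if_neg hk]

theorem el_zero (i j : Fin n) : el i j 0 = MonoidHom.id (FF n) := by
  refine FreeGroup.ext_hom _ _ fun k => ?_
  rw [el_of, MonoidHom.id_apply]
  by_cases hk : k = j
  · rw [if_pos hk, zpow_zero, mul_one, hk]
  · rw [if_neg hk]

/-- elementary automorphisms -/
noncomputable def elA {i j : Fin n} (h : i ≠ j) (t : ℤ) : MulAut (FF n) :=
  MonoidHom.toMulEquiv (el i j t) (el i j (-t))
    (by rw [el_comp h, neg_add_cancel, el_zero]) (by rw [el_comp h, add_neg_cancel, el_zero])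

theorem elA_apply {i j : Fin n} (h : i ≠ j) (t : ℤ) (x : FF n) : elA h t x = el i j t x := rfl

theorem mat_elA {i j : Fin n} (h : i ≠ j) (t : ℤ) :
    mat (elA h t) = (SpecialLinearGroup.transvection h t).1 := by
  have h1 : (SpecialLinearGroup.transvection h t).1 =
    (1 : Matrix (Fin n) (Fin n) ℤ) + single i j t := rfl
  rw [h1]
  ext k l
  rw [mat_apply, elA_apply, el_of, Matrix.add_apply, Matrix.one_apply, Matrix.single_apply]
  by_cases hl : l = j
  · rw [if_pos hl, e_mul, e_zpow, e_of, e_of, hl, Pi.add_apply, Pi.smul_apply, Pi.single_apply,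
      Pi.single_apply]
    by_cases hk : i = k
    · subst hk; simp [h]
    · simp [hk, Ne.symm hk]
  · rw [if_neg hl, e_of, Pi.single_apply]
    have : ¬ (i = k ∧ j = l) := fun h => hl h.2.symm
    rw [if_neg this, add_zero]

theorem exists_lift (hG : StGen) (A : SLn n) : ∃ ψ : MulAut (FF n), mat ψ = A.1 := by
  have h : A ∈ EE n 1 := by rw [hG n]; trivial
  unfold EE at h
  refine Subgroup.closure_induction (p := fun A _ => ∃ ψ : MulAut (FF n), mat ψ = A.1)
    ?_ ?_ ?_ ?_ h
  · rintro A ⟨i, j, hij, t, rfl⟩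
    exact ⟨elA hij (1 * t), mat_elA hij _⟩
  · exact ⟨1, mat_one⟩
  · rintro A B _ _ ⟨ψ, hψ⟩ ⟨φ, hφ⟩
    exact ⟨ψ * φ, by rw [mat_mul, hψ, hφ]; rfl⟩
  · rintro A _ ⟨ψ, hψ⟩
    refine ⟨ψ⁻¹, ?_⟩
    have h1 : mat ψ⁻¹ * A.1 = 1 := by rw [← hψ, mat_inv_mul]
    have h2 : A.1 * (A⁻¹).1 = 1 := by
      have : (A * A⁻¹).1 = 1 := by rw [mul_inv_cancel]; rfl
      exact this
    calc mat ψ⁻¹ = mat ψ⁻¹ * (A.1 * (A⁻¹).1) := by rw [h2, mul_one]
      _ = (A⁻¹).1 := by rw [← mul_assoc, h1, one_mul]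

/-- the congruence subgroup of `K` -/
def Ga (K : Subgroup (FF n)) : Subgroup (MulAut (FF n)) where
  carrier := {ψ | Triv K ψ}
  one_mem' := by
    intro x
    rw [MulAut.one_apply, mul_inv_cancel]
    exact K.one_mem
  mul_mem' := by
    intro ψ φ hψ hφ x
    have h1 := K.mul_mem (hψ (φ x)) (hφ x)
    rw [MulAut.mul_apply]
    have h2 : ψ (φ x) * (φ x)⁻¹ * (φ x * x⁻¹) = ψ (φ x) * x⁻¹ := by group
    rw [h2] at h1
    exact h1
  inv_mem' := by
    intro ψ hψ x
    have h1 := K.inv_mem (hψ (ψ⁻¹ x))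
    rw [MulAut.apply_inv_self, _root_.mul_inv_rev, inv_inv] at h1
    exact h1

theorem mem_Ga {K : Subgroup (FF n)} {ψ : MulAut (FF n)} : ψ ∈ Ga K ↔ Triv K ψ := Iff.rfl

theorem Ga_fin (K : Subgroup (FF n)) (hc : K.Characteristic) (hf : K.FiniteIndex) :
    (Ga K).FiniteIndex := by
  have := hc
  have := hf
  have : Finite (FF n ⧸ K) := Subgroup.finite_quotient_of_finiteIndex
  have hinj : Function.Injective (fun (q : MulAut (FF n) ⧸ Ga K) (i : Fin n) =>
      (QuotientGroup.mk' K (q.out (FreeGroup.of i)))) := by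
    intro q q' hqq
    have h1 : ((QuotientGroup.mk' K).comp (q.out : FF n ≃* FF n).toMonoidHom) =
        ((QuotientGroup.mk' K).comp (q'.out : FF n ≃* FF n).toMonoidHom) := by
      refine FreeGroup.ext_hom _ _ fun i => ?_
      exact congrFun hqq i
    have h2 : (q.out)⁻¹ * q'.out ∈ Ga K := by
      intro x
      have h3 := DFunLike.congr_fun h1 x
      have h4 : (q'.out x) * (q.out x)⁻¹ ∈ K := by
        have h5 : QuotientGroup.mk' K (q.out x) = QuotientGroup.mk' K (q'.out x) := h3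
        have h6 : QuotientGroup.mk' K (q'.out x * (q.out x)⁻¹) = 1 := by
          rw [map_mul, map_inv, h5, mul_inv_cancel]
        rwa [← MonoidHom.mem_ker, QuotientGroup.ker_mk'] at h6
      have h7 := (Subgroup.characteristic_iff_le_comap.1 hc) (q.out⁻¹ : MulAut (FF n)) h4
      rw [Subgroup.mem_comap] at h7
      have h8 : (MulEquiv.toMonoidHom (q.out⁻¹ : MulAut (FF n))) (q'.out x * (q.out x)⁻¹) =
          (q.out⁻¹ * q'.out) x * x⁻¹ := by
        change (q.out⁻¹ : MulAut (FF n)) (q'.out x * (q.out x)⁻¹) = _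
        rw [map_mul, map_inv, MulAut.inv_apply_self, MulAut.mul_apply]
      rw [h8] at h7
      exact h7
    rw [← QuotientGroup.out_eq' q, ← QuotientGroup.out_eq' q']
    exact QuotientGroup.eq.2 h2
  have : Finite (MulAut (FF n) ⧸ Ga K) := Finite.of_injective _ hinj
  exact Subgroup.finiteIndex_of_finite_quotient

/-- the image of a subgroup in `SL_n(ℤ)` -/
def Hb (N : Subgroup (MulAut (FF n))) : Subgroup (SLn n) where
  carrier := {A | ∃ ψ ∈ N, mat ψ = A.1}
  one_mem' := ⟨1, N.one_mem, mat_one⟩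
  mul_mem' := by
    rintro A B ⟨ψ, h1, h2⟩ ⟨φ, h3, h4⟩
    exact ⟨ψ * φ, N.mul_mem h1 h3, by rw [mat_mul, h2, h4]; rfl⟩
  inv_mem' := by
    rintro A ⟨ψ, h1, hψ⟩
    refine ⟨ψ⁻¹, N.inv_mem h1, ?_⟩
    have h1 : mat ψ⁻¹ * A.1 = 1 := by rw [← hψ, mat_inv_mul]
    have h2 : A.1 * (A⁻¹).1 = 1 := by
      have : (A * A⁻¹).1 = 1 := by rw [mul_inv_cancel]; rfl
      exact this
    calc mat ψ⁻¹ = mat ψ⁻¹ * (A.1 * (A⁻¹).1) := by rw [h2, mul_one]
      _ = (A⁻¹).1 := by rw [← mul_assoc, h1, one_mul]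

theorem mem_Hb {N : Subgroup (MulAut (FF n))} {A : SLn n} :
    A ∈ Hb N ↔ ∃ ψ ∈ N, mat ψ = A.1 := Iff.rfl

theorem Hb_fin (hG : StGen) (N : Subgroup (MulAut (FF n))) (hf : N.FiniteIndex) :
    (Hb N).FiniteIndex := by
  have := hf
  have : Finite (MulAut (FF n) ⧸ N) := Subgroup.finite_quotient_of_finiteIndex
  choose s hs using fun A : SLn n => exists_lift hG A
  have hinj : Function.Injective (fun (q : SLn n ⧸ Hb N) =>
      (QuotientGroup.mk (s q.out) : MulAut (FF n) ⧸ N)) := by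
    intro q q' hqq
    have h1 : (s q.out)⁻¹ * s q'.out ∈ N := QuotientGroup.eq.1 hqq
    have h2 : (q.out)⁻¹ * q'.out ∈ Hb N := by
      refine ⟨_, h1, ?_⟩
      rw [mat_mul, hs]
      have h3 : mat (s q.out)⁻¹ * q.out.1 = 1 := by rw [← hs q.out, mat_inv_mul]
      have h4 : q.out.1 * (q.out⁻¹).1 = 1 := by
        have : (q.out * q.out⁻¹).1 = 1 := by rw [mul_inv_cancel]; rfl
        exact this
      have h5 : mat (s q.out)⁻¹ = (q.out⁻¹).1 := by
        calc mat (s q.out)⁻¹ = mat (s q.out)⁻¹ * (q.out.1 * (q.out⁻¹).1) := by rw [h4, mul_one]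
          _ = (q.out⁻¹).1 := by rw [← mul_assoc, h3, one_mul]
      rw [h5]
      rfl
    rw [← QuotientGroup.out_eq' q, ← QuotientGroup.out_eq' q']
    exact QuotientGroup.eq.2 h2
  have : Finite (SLn n ⧸ Hb N) := Finite.of_injective _ hinj
  exact Subgroup.finiteIndex_of_finite_quotient

/-- reduction modulo `m` of the exponent sums -/
noncomputable def abm (n m : ℕ) : FF n →* Multiplicative (Fin n → ZMod m) :=
  FreeGroup.lift (fun i => Multiplicative.ofAdd (Pi.single i 1))

theorem abm_apply (m : ℕ) (x : FF n) :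
    abm n m x = Multiplicative.ofAdd (fun i => ((e x i : ℤ) : ZMod m)) := by
  refine e_ind (P := fun x => abm n m x =
    Multiplicative.ofAdd (fun i => ((e x i : ℤ) : ZMod m))) ?_ ?_ ?_ ?_ x
  · rw [map_one, e_one]
    apply Multiplicative.toAdd.injective
    funext i
    simp
  · intro i
    unfold abm
    rw [FreeGroup.lift_apply_of, e_of]
    apply Multiplicative.toAdd.injective
    funext k
    simp only [toAdd_ofAdd, Pi.single_apply]
    split_ifs <;> simp
  · intro x y hx hy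
    rw [map_mul, hx, hy, e_mul, ← ofAdd_add]
    apply Multiplicative.toAdd.injective
    funext i
    simp
  · intro x hx
    rw [map_inv, hx, e_inv, ← ofAdd_neg]
    apply Multiplicative.toAdd.injective
    funext i
    simp

theorem mem_ker_abm (m : ℕ) (x : FF n) : x ∈ (abm n m).ker ↔ ∀ i, (m : ℤ) ∣ e x i := by
  rw [MonoidHom.mem_ker, abm_apply]
  constructor
  · intro h i
    have h1 := congrFun (congrArg Multiplicative.toAdd h) i
    rw [toAdd_ofAdd, toAdd_one] at h1
    exact (ZMod.intCast_zmod_eq_zero_iff_dvd _ _).1 h1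
  · intro h
    apply Multiplicative.toAdd.injective
    funext i
    rw [toAdd_ofAdd, toAdd_one]
    exact (ZMod.intCast_zmod_eq_zero_iff_dvd _ _).2 (h i)

theorem det_eq {m : ℤ} (h3 : (3 : ℤ) ∣ m) (ψ : MulAut (FF n))
    (h : ∀ i j, m ∣ mat ψ i j - (1 : Matrix (Fin n) (Fin n) ℤ) i j) : (mat ψ).det = 1 := by
  have h1 : (mat ψ).det * (mat ψ⁻¹).det = 1 := by
    rw [← Matrix.det_mul, mat_mul_inv, Matrix.det_one]
  have h2 : IsUnit (mat ψ).det := IsUnit.of_mul_eq_one _ h1
  rcases Int.isUnit_iff.1 h2 with h4 | h4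
  · exact h4
  exfalso
  have h5 : (mat ψ).map (Int.castRingHom (ZMod 3)) = 1 := by
    ext i j
    rw [Matrix.map_apply]
    have h6 : (((mat ψ i j - (1 : Matrix (Fin n) (Fin n) ℤ) i j : ℤ)) : ZMod 3) = 0 := by
      exact (ZMod.intCast_zmod_eq_zero_iff_dvd _ 3).2 (h3.trans (h i j))
    rw [Int.cast_sub, sub_eq_zero] at h6
    change ((mat ψ i j : ℤ) : ZMod 3) = (1 : Matrix (Fin n) (Fin n) (ZMod 3)) i j
    rw [h6, Matrix.one_apply, Matrix.one_apply]
    split_ifs <;> simp
  have h7 := congrArg Matrix.det h5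
  rw [← RingHom.mapMatrix_apply, ← RingHom.map_det, h4, Matrix.det_one] at h7
  revert h7
  decide

theorem t_top (hC : StCSP) (hG : StGen) : StTop := by
  intro n hn N hN hNf hPC
  have := hN
  have := hNf
  obtain ⟨K1, hK1c, hK1f, hK1⟩ := hPC
  have := hK1c
  have := hK1f
  have := Ga_fin K1 hK1c hK1f
  have hfi : (N ⊓ Ga K1).FiniteIndex := inferInstance
  obtain ⟨M, hM, hMH⟩ := hC n hn (Hb (N ⊓ Ga K1)) (Hb_fin hG _ hfi)
  have : NeZero (3 * M) := ⟨by omega⟩
  have hker : ((abm n (3 * M)).ker).FiniteIndex := by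
    have : Finite (Multiplicative (Fin n → ZMod (3 * M))) :=
      inferInstanceAs (Finite (Fin n → ZMod (3 * M)))
    infer_instance
  have hchar : ((abm n (3 * M)).ker).Characteristic := by
    rw [Subgroup.characteristic_iff_le_comap]
    intro φ x hx
    rw [Subgroup.mem_comap, mem_ker_abm]
    rw [mem_ker_abm] at hx
    intro i
    change ((3 * M : ℕ) : ℤ) ∣ e (φ x) i
    have h1 : e (φ x) = mat (φ : MulAut (FF n)) *ᵥ e x := e_map (φ : MulAut (FF n)) x
    rw [h1]
    have h2 : (mat (φ : MulAut (FF n)) *ᵥ e x) i = ∑ j, mat (φ : MulAut (FF n)) i j * e x j := rfl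
    rw [h2]
    exact Finset.dvd_sum fun j _ => (hx j).mul_left _
  refine ⟨K1 ⊓ (abm n (3 * M)).ker, ?_, inferInstance, ?_⟩
  · rw [Subgroup.characteristic_iff_le_comap]
    intro φ x hx
    exact ⟨(Subgroup.characteristic_iff_le_comap.1 hK1c) φ hx.1,
      (Subgroup.characteristic_iff_le_comap.1 hchar) φ hx.2⟩
  · intro ψ hψ _
    have h1 : ψ ∈ Ga K1 := fun x => (hψ x).1
    have h2 : ∀ i j, ((3 * M : ℕ) : ℤ) ∣ mat ψ i j - (1 : Matrix (Fin n) (Fin n) ℤ) i j := by
      intro i j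
      have h3 := (mem_ker_abm _ _).1 (hψ (FreeGroup.of j)).2 i
      rw [e_mul, e_inv, e_of, Pi.add_apply, Pi.neg_apply, Pi.single_apply] at h3
      rw [mat_apply, Matrix.one_apply, sub_eq_add_neg]
      exact h3
    have hdet : (mat ψ).det = 1 := by
      refine det_eq (m := ((3 * M : ℕ) : ℤ)) ?_ ψ h2
      push_cast
      exact Dvd.intro _ rfl
    obtain ⟨φ, hφ, hφm⟩ := mem_Hb.1 (hMH ⟨mat ψ, hdet⟩ (fun i j => by
      refine dvd_trans ?_ (h2 i j)
      push_cast
      exact Dvd.intro_left _ rfl))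
    have h4 : mat (φ⁻¹ * ψ) = 1 := by
      rw [mat_mul]
      have : mat φ = mat ψ := hφm
      rw [← this, mat_inv_mul]
    have h5 : φ⁻¹ * ψ ∈ N := by
      refine hK1 _ ?_ ?_
      · exact (Ga K1).mul_mem ((Ga K1).inv_mem hφ.2) h1
      · intro x
        refine mem_gam_one ?_
        rw [e_mul, e_inv, e_map, h4, one_mulVec, add_neg_cancel]
    have h6 := N.mul_mem hφ.1 h5
    rwa [mul_inv_cancel_left] at h6

end Pool.Agent.TH610.CSP.H148
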